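import Pool.Agent.W680.WH.Stm

/-!
# Project WHH (MP_af71ff_an), part KN3: the operator is onto
-/

set_option autoImplicit false

open scoped ComplexConjugate InnerProductSpace
open ContinuousLinearMap Filter

namespace Pool.Agent.W109.WH.KN3

open Pool.Agent.W680.WH

lemma geo (z : ℂ) (hz : ‖z‖ = 1) (h1 : z ≠ 1) :
    Tendsto (fun N : ℕ => ((N : ℂ) + 1)⁻¹ * ∑ j ∈ Finset.range (N + 1), z ^ j) atTop (nhds 0) := by
  have hb : ∀ N : ℕ, ‖((N : ℂ) + 1)⁻¹ * ∑ j ∈ Finset.range (N + 1), z ^ j‖ ≤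
      (2 / ‖z - 1‖) * (1 / ((N : ℝ) + 1)) := by
    intro N
    rw [geom_sum_eq h1, norm_mul, norm_inv, norm_div]
    have e1 : ‖((N : ℂ) + 1)‖ = (N : ℝ) + 1 := by
      have : ((N : ℂ) + 1) = (((N : ℝ) + 1 : ℝ) : ℂ) := by push_cast; ring
      rw [this, Complex.norm_real, Real.norm_of_nonneg (by positivity)]
    rw [e1]
    have e2 : ‖z ^ (N + 1) - 1‖ ≤ 2 := by
      calc ‖z ^ (N + 1) - 1‖ ≤ ‖z ^ (N + 1)‖ + ‖(1 : ℂ)‖ := norm_sub_le _ _
        _ = 2 := by rw [norm_pow, hz, one_pow, norm_one]; norm_num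
    have e3 : 0 < ‖z - 1‖ := norm_pos_iff.mpr (sub_ne_zero.mpr h1)
    rw [mul_comm, one_div]
    apply mul_le_mul_of_nonneg_right _ (by positivity)
    exact div_le_div_of_nonneg_right e2 e3.le
  refine squeeze_zero_norm hb ?_
  have := (tendsto_one_div_add_atTop_nhds_zero_nat (𝕜 := ℝ)).const_mul (2 / ‖z - 1‖)
  simpa using this

lemma avg_bound (z : ℂ) (hz : ‖z‖ = 1) (N : ℕ) :
    ‖((N : ℂ) + 1)⁻¹ * ∑ j ∈ Finset.range (N + 1), z ^ j‖ ≤ 1 := by
  rw [norm_mul, norm_inv]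
  have e1 : ‖((N : ℂ) + 1)‖ = (N : ℝ) + 1 := by
    have : ((N : ℂ) + 1) = (((N : ℝ) + 1 : ℝ) : ℂ) := by push_cast; ring
    rw [this, Complex.norm_real, Real.norm_of_nonneg (by positivity)]
  rw [e1]
  have e2 : ‖∑ j ∈ Finset.range (N + 1), z ^ j‖ ≤ (N : ℝ) + 1 := by
    calc ‖∑ j ∈ Finset.range (N + 1), z ^ j‖ ≤ ∑ j ∈ Finset.range (N + 1), ‖z ^ j‖ :=
          norm_sum_le _ _
      _ = (N : ℝ) + 1 := by simp [norm_pow, hz]
  have h0 : (0 : ℝ) < (N : ℝ) + 1 := by positivity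
  rw [inv_mul_le_iff₀ h0]
  linarith

lemma avg_one (N : ℕ) : ((N : ℂ) + 1)⁻¹ * ∑ j ∈ Finset.range (N + 1), (1 : ℂ) ^ j = 1 := by
  have h : ((N : ℂ) + 1) ≠ 0 := by exact_mod_cast Nat.succ_ne_zero N
  simp only [one_pow, Finset.sum_const, Finset.card_range, nsmul_eq_mul, mul_one]
  push_cast
  exact inv_mul_cancel₀ h

/-- extraction of one coefficient -/
lemma extract (a z : ℤ → ℂ) (n0 : ℤ) (ha : Summable fun n => ‖a n‖) (hz : ∀ n, ‖z n‖ = 1)
    (hz0 : z n0 = 1) (hz1 : ∀ n, n ≠ n0 → z n ≠ 1)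
    (h : ∀ j : ℕ, ∑' n, a n * (z n) ^ j = 0) : a n0 = 0 := by
  have key : ∀ N : ℕ, ∑' n, a n * (((N : ℂ) + 1)⁻¹ * ∑ j ∈ Finset.range (N + 1), (z n) ^ j) = 0 := by
    intro N
    have hs : ∀ j ∈ Finset.range (N + 1), Summable fun n => a n * (z n) ^ j := by
      intro j _
      refine Summable.of_norm ?_
      have : (fun n => ‖a n * (z n) ^ j‖) = fun n => ‖a n‖ := by
        funext n; rw [norm_mul, norm_pow, hz, one_pow, mul_one]
      rw [this]; exact ha
    have e : (fun n => a n * (((N : ℂ) + 1)⁻¹ * ∑ j ∈ Finset.range (N + 1), (z n) ^ j)) =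
        fun n => ((N : ℂ) + 1)⁻¹ * ∑ j ∈ Finset.range (N + 1), a n * (z n) ^ j := by
      funext n
      rw [← Finset.mul_sum]; ring
    rw [e, tsum_mul_left, Summable.tsum_finsetSum hs]
    rw [Finset.sum_eq_zero (fun j _ => h j), mul_zero]
  have lim : Tendsto (fun N : ℕ => ∑' n, a n * (((N : ℂ) + 1)⁻¹ *
      ∑ j ∈ Finset.range (N + 1), (z n) ^ j)) atTop (nhds (∑' n, if n = n0 then a n0 else 0)) := by
    refine tendsto_tsum_of_dominated_convergence ha (fun n => ?_) ?_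
    · by_cases hn : n = n0
      · subst hn
        rw [if_pos rfl, hz0]
        simp only [avg_one, mul_one]
        exact tendsto_const_nhds
      · rw [if_neg hn]
        have := (geo (z n) (hz n) (hz1 n hn)).const_mul (a n)
        simpa using this
    · refine Filter.Eventually.of_forall (fun N n => ?_)
      rw [norm_mul]
      have := avg_bound (z n) (hz n) N
      nlinarith [norm_nonneg (a n)]
  rw [tsum_ite_eq] at lim
  simp only [key] at lim
  exact (tendsto_nhds_unique lim tendsto_const_nhds)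

theorem kn3 (hA : S_OPA) (hC : S_OPC) (hR : S_OPR) : S_KN3 := by
  intro P m k W A l _ _ _ hk _ hl hAZ hA0 hWZ hWA hbd
  obtain ⟨c, hc, hcA⟩ := hbd
  obtain ⟨-, -, ⟨hZe, -⟩, -⟩ := hA
  obtain ⟨hRe, hRZ, -, hRR, hR1, -, hRco⟩ := hR
  obtain ⟨hcoe, hcoZ, hcoZi, -, hcoadd, hcosmul, -, -, hext, -, hinner, hsum, -, -, -, -, hcomm,
    huniq⟩ := hC
  set R1 : E →L[ℂ] E := R k⁻¹ with hR1def
  set Wi : E →L[ℂ] E := ((W⁻¹ : (E →L[ℂ] E)ˣ) : E →L[ℂ] E) with hWi
  have hWWi : (W : E →L[ℂ] E) * Wi = 1 := W.mul_inv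
  have hWiW : Wi * (W : E →L[ℂ] E) = 1 := W.inv_mul
  have hk0 : (k : ℂ) ≠ 0 := Circle.coe_ne_zero k
  have hl0 : l ≠ 0 := by
    intro h; rw [h, norm_zero] at hl; exact zero_ne_one hl
  -- Z Wi = k⁻¹ Wi Z
  have hZWi : Z * Wi = (k : ℂ)⁻¹ • (Wi * Z) := by
    have h1 : Wi * ((k : ℂ) • ((W : E →L[ℂ] E) * Z)) * Wi = Wi * (Z * (W : E →L[ℂ] E)) * Wi := by
      rw [hWZ]
    have h2 : Wi * ((k : ℂ) • ((W : E →L[ℂ] E) * Z)) * Wi = (k : ℂ) • (Z * Wi) := by
      rw [mul_smul_comm, smul_mul_assoc, ← mul_assoc Wi, hWiW, one_mul]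
    have h3 : Wi * (Z * (W : E →L[ℂ] E)) * Wi = Wi * Z := by
      rw [mul_assoc, mul_assoc, hWWi, mul_one]
    rw [h2, h3] at h1
    rw [← h1, smul_smul, inv_mul_cancel₀ hk0, one_smul]
  -- R1 Z = k⁻¹ Z R1
  have hR1Z : R1 * Z = (k : ℂ)⁻¹ • (Z * R1) := by
    have := hRZ k⁻¹
    rw [this, Circle.coe_inv]
  have hZR1 : Z * R1 = (k : ℂ) • (R1 * Z) := by
    rw [hR1Z, smul_smul, mul_inv_cancel₀ hk0, one_smul]
  -- the operators commuting with Z
  have hN : ∀ j : ℕ, (R1 ^ j * Wi ^ j) * Z = Z * (R1 ^ j * Wi ^ j) := by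
    intro j
    induction j with
    | zero => simp
    | succ j ih =>
      have e : R1 ^ (j + 1) * Wi ^ (j + 1) = R1 * (R1 ^ j * Wi ^ j) * Wi := by
        rw [pow_succ' R1, pow_succ Wi]; noncomm_ring
      rw [e]
      have e1 : Z * (R1 * (R1 ^ j * Wi ^ j) * Wi) = (k : ℂ) • (R1 * (Z * (R1 ^ j * Wi ^ j)) * Wi) := by
        rw [← mul_assoc, ← mul_assoc, hZR1, smul_mul_assoc, smul_mul_assoc]
        simp only [mul_assoc]
      rw [e1, ← ih]
      have e2 : R1 * (R1 ^ j * Wi ^ j * Z) * Wi = (k : ℂ)⁻¹ • (R1 * (R1 ^ j * Wi ^ j) * Wi * Z) := by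
        have : R1 * (R1 ^ j * Wi ^ j * Z) * Wi = R1 * (R1 ^ j * Wi ^ j) * (Z * Wi) := by
          simp only [mul_assoc]
        rw [this, hZWi, mul_smul_comm]
        simp only [mul_assoc]
      rw [e2, smul_smul, mul_inv_cancel₀ hk0, one_smul]
  have hNA : ∀ j : ℕ, (R1 ^ j * Wi ^ j) * A = A * (R1 ^ j * Wi ^ j) := fun j =>
    hcomm _ _ (hN j) hAZ
  -- eigenvectors
  have hWF : ∀ i : ℤ, ∃ e : ℂ, e ≠ 0 ∧ Wi (A (eb i)) = e • A (eb i) := by
    intro i
    have h1 : (W : E →L[ℂ] E) (A (eb i)) = (l * ((k⁻¹ ^ i : Circle) : ℂ)) • A (eb i) := by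
      have := congrArg (fun B : E →L[ℂ] E => B (eb i)) hWA
      simp only [ContinuousLinearMap.mul_apply, ContinuousLinearMap.smul_apply] at this
      rw [this, hR1def, hRe, map_smul, smul_smul]
    have hne : (l * ((k⁻¹ ^ i : Circle) : ℂ)) ≠ 0 := mul_ne_zero hl0 (Circle.coe_ne_zero _)
    refine ⟨(l * ((k⁻¹ ^ i : Circle) : ℂ))⁻¹, inv_ne_zero hne, ?_⟩
    have h2 : Wi ((W : E →L[ℂ] E) (A (eb i))) = A (eb i) := by
      have := congrArg (fun B : E →L[ℂ] E => B (A (eb i))) hWiW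
      simpa only [ContinuousLinearMap.mul_apply, ContinuousLinearMap.one_apply] using this
    rw [h1, map_smul] at h2
    have h3 : Wi (A (eb i)) = (l * ((k⁻¹ ^ i : Circle) : ℂ))⁻¹ •
        ((l * ((k⁻¹ ^ i : Circle) : ℂ)) • Wi (A (eb i))) := by
      rw [smul_smul, inv_mul_cancel₀ hne, one_smul]
    rw [h3, h2]
  have hWFj : ∀ (i : ℤ) (j : ℕ), ∃ e : ℂ, e ≠ 0 ∧ (Wi ^ j) (A (eb i)) = e • A (eb i) := by
    intro i j
    induction j with
    | zero => exact ⟨1, one_ne_zero, by simp⟩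
    | succ j ih =>
      obtain ⟨e, he, h⟩ := ih
      obtain ⟨e', he', h'⟩ := hWF i
      refine ⟨e * e', mul_ne_zero he he', ?_⟩
      rw [pow_succ', ContinuousLinearMap.mul_apply, h, map_smul, h', smul_smul]
  -- the rotated vectors are in the range
  have hran : ∀ (i : ℤ) (j : ℕ), ∃ v : E, (R1 ^ j) (A (eb i)) = A v := by
    intro i j
    obtain ⟨e, he, h⟩ := hWFj i j
    refine ⟨e⁻¹ • (R1 ^ j * Wi ^ j) (eb i), ?_⟩
    have h1 := congrArg (fun B : E →L[ℂ] E => B (eb i)) (hNA j)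
    simp only [ContinuousLinearMap.mul_apply] at h1
    rw [h, map_smul] at h1
    rw [map_smul, ContinuousLinearMap.mul_apply, ← h1, smul_smul, inv_mul_cancel₀ he, one_smul]
  -- coordinates
  have hcoR : ∀ (f : E) (j : ℕ) (n : ℤ), co ((R1 ^ j) f) n = (((k⁻¹ ^ n : Circle) : ℂ)) ^ j * co f n := by
    intro f j n
    induction j with
    | zero => simp
    | succ j ih =>
      rw [pow_succ', ContinuousLinearMap.mul_apply, hR1def, hRco, ← hR1def, ih, pow_succ']
      ring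
  have hcoA : ∀ (i : ℤ) (n : ℤ), co (A (eb (i + 1))) n = co (A (eb i)) (n - 1) := by
    intro i n
    have h1 := congrArg (fun B : E →L[ℂ] E => B (eb i)) hAZ
    simp only [ContinuousLinearMap.mul_apply] at h1
    rw [hZe] at h1
    rw [h1, hcoZ]
  have hcoA2 : ∀ (i : ℤ) (n : ℤ), co (A (eb i)) n = co (A (eb 0)) (n - i) := by
    intro i
    induction i using Int.induction_on with
    | zero => intro n; simp
    | succ i ih => intro n; rw [hcoA, ih]; congr 1; ring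
    | pred i ih =>
      intro n
      have h := hcoA (-(i : ℤ) - 1) (n + 1)
      have e1 : -(i : ℤ) - 1 + 1 = -(i : ℤ) := by ring
      have e2 : n + 1 - 1 = n := by ring
      rw [e1, e2] at h
      rw [← h, ih]; congr 1; ring
  -- nonzero coordinate
  have hco0 : ∀ n : ℤ, co (0 : E) n = 0 := by
    intro n
    have := hcosmul 0 0 n
    simpa using this
  obtain ⟨n0, hn0⟩ : ∃ n0, co (A (eb 0)) n0 ≠ 0 := by
    by_contra hcon
    push Not at hcon
    apply hA0
    refine huniq A 0 hAZ (by simp) ?_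
    refine hext _ _ (fun n => ?_)
    rw [hcon n, ContinuousLinearMap.zero_apply, hco0]
  -- orthogonal complement
  have horth : ∀ g : E, (∀ v, ⟪g, A v⟫_ℂ = 0) → g = 0 := by
    intro g hg
    refine hext _ _ (fun N => ?_)
    rw [hco0]
    set i : ℤ := N - n0 with hi
    have hF : co (A (eb i)) N ≠ 0 := by
      rw [hcoA2, hi]
      have : N - (N - n0) = n0 := by ring
      rw [this]; exact hn0
    have key := extract (fun n => (om n : ℂ) * (conj (co g n) * co (A (eb i)) n))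
      (fun n => ((k ^ (N - n) : Circle) : ℂ)) N ((hsum g (A (eb i))).norm)
      (fun n => Circle.norm_coe _) (by simp) (by
        intro n hn
        have : k ^ (N - n) ≠ 1 := hk _ (sub_ne_zero.mpr (Ne.symm hn))
        intro h
        exact this (Circle.ext (by rw [h, Circle.coe_one])))
      (by
        intro j
        obtain ⟨v, hv⟩ := hran i j
        have h1 : ⟪g, (R1 ^ j) (A (eb i))⟫_ℂ = 0 := by rw [hv]; exact hg v
        rw [hinner] at h1
        have e : (fun n : ℤ => (om n : ℂ) * (conj (co g n) * co (A (eb i)) n) *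
            (((k ^ (N - n) : Circle) : ℂ)) ^ j) = fun n : ℤ => (((k ^ N : Circle) : ℂ)) ^ j *
            ((om n : ℂ) * (conj (co g n) * co ((R1 ^ j) (A (eb i))) n)) := by
          funext n
          rw [hcoR]
          have e3 : ((k ^ (N - n) : Circle) : ℂ) = ((k ^ N : Circle) : ℂ) * ((k⁻¹ ^ n : Circle) : ℂ) := by
            rw [← Circle.coe_mul, inv_zpow, ← zpow_neg, ← zpow_add, sub_eq_add_neg]
          rw [e3, mul_pow]; ring
        rw [e, tsum_mul_left, h1, mul_zero])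
    have hom : (om N : ℂ) ≠ 0 := by exact_mod_cast (om_pos N).ne'
    have h2 := (mul_eq_zero.mp key).resolve_left hom
    have h3 := (mul_eq_zero.mp h2).resolve_right hF
    exact (map_eq_zero _).mp h3
  -- closed range
  have hanti : AntilipschitzWith (Real.toNNReal c⁻¹) A := by
    refine ContinuousLinearMap.antilipschitz_of_bound A (fun x => ?_)
    rw [Real.coe_toNNReal _ (by positivity)]
    have := hcA x
    rw [inv_mul_eq_div, le_div_iff₀ hc]
    linarith
  have hclosed : IsClosed (Set.range A) := hanti.isClosed_range A.uniformContinuous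
  have hcl2 : IsClosed ((LinearMap.range (A : E →ₗ[ℂ] E) : Submodule ℂ E) : Set E) := by
    rw [LinearMap.coe_range]; exact hclosed
  haveI : CompleteSpace (LinearMap.range (A : E →ₗ[ℂ] E)) := hcl2.completeSpace_coe
  have htop : LinearMap.range (A : E →ₗ[ℂ] E) = ⊤ := by
    rw [← Submodule.orthogonal_eq_bot_iff, Submodule.eq_bot_iff]
    intro g hg
    apply horth
    intro v
    rw [Submodule.mem_orthogonal'] at hg
    exact hg _ ⟨v, rfl⟩
  exact LinearMap.range_eq_top.mp htop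

end Pool.Agent.W109.WH.KN3
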